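import Pool.Agent.W_7d29a1_AC.DefsAC8
import Pool.Agent.W_7d29a1_AC.DefsF8

/-!
Theorem ML: in very strong disorder the end point of the polymer is localised in a bounded region at
almost all times. Definitions and frozen statements of the leaves.
-/

set_option autoImplicit false

namespace Pool.Agent.W_7d29a1_ML

open MeasureTheory ProbabilityTheory Filter Topology Pool.Agent.W_MP_7d29a1_pr
  Pool.Agent.W_7d29a1_h46 Pool.Agent.W_7d29a1_h46u Pool.Agent.W_7d29a1_D2.B35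
  Pool.Agent.W_7d29a1_Q29 Pool.Agent.W_7d29a1_NV Pool.Agent.W_7d29a1_AC

section Pol

variable {d : ℕ}

/-- `α` is a measurable function of the rows `≤ p`. -/
def Pst (p : ℕ) (α : Env d → ℝ) : Prop :=
  Measurable α ∧ ∀ η η' : Env d, (∀ q : ℕ × Site d, q.1 ≤ p → η q = η' q) → α η = α η'

/-- The window with the moving centre `α`. -/
def winM (β : ℝ) (h : Vec d) (n : ℕ) (α : Env d → ℝ) (M : ℝ) : Set (Env d) :=
  {η | |X β h η n - α η| ≤ M}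

/-- The mass of the ring `R < |X - α| ≤ M`. -/
noncomputable def ringM (ρ : Measure ℝ) (β : ℝ) (h : Vec d) (n : ℕ) (α : Env d → ℝ) (R M : ℝ) : ℝ :=
  (law d ρ).real {η | R < |X β h η n - α η| ∧ |X β h η n - α η| ≤ M}

/-- The free energy is flat in mean between the lengths `n` and `n + m`. -/
def FlaAt (ρ : Measure ℝ) (β : ℝ) (h : Vec d) (n m : ℕ) (ε : ℝ) : Prop :=
  ∫ η, |X β h η (n + m) - X β h η n - lam ρ β h * m| ∂(law d ρ) ≤ ε * m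

open Classical in
/-- The sites of `D` are taken from `η'`. -/
noncomputable def sw (D : Set (ℕ × Site d)) (η η' : Env d) : Env d := fun q =>
  if q ∈ D then η' q else η q

/-- The sites whose `s`-neighbourhood lies in `A`. -/
def inn (s : ℕ) (A : Set (Site d)) : Set (Site d) :=
  {x | ∀ y : Site d, (∀ i, |y i - x i| ≤ s) → y ∈ A}

open Classical in
/-- The mass of `A` for the end point. -/
noncomputable def mA (β : ℝ) (h : Vec d) (n : ℕ) (A : Set (Site d)) (η : Env d) : ℝ :=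
  ∑ x ∈ (boxF d n).filter fun x => x ∈ A, Qt β h n n x η

open Classical in
/-- The mass of the pairs of distance larger than `ℓ` for two replicas of the end point. -/
noncomputable def far (β : ℝ) (h : Vec d) (n ℓ : ℕ) (η : Env d) : ℝ :=
  ∑ x ∈ boxF d n, ∑ y ∈ boxF d n, if ∀ i, |x i - y i| ≤ ℓ then 0 else Qt β h n n x η * Qt β h n n y η

end Pol

section Leaves

variable (d : ℕ) (ρ : Measure ℝ) (β b : ℝ)

/-- Leaf M1: `LoP` with a moving centre. -/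
def LoPM : Prop := ∀ (h : Vec d) (n q J p : ℕ) (t : Fin q → ℕ) (r : Fin (q + 1) → ℕ), 1 ≤ q →
  1 ≤ J → OrdB n J t r → p ≤ r 0 → ∀ α : Env d → ℝ, Pst p α → ∀ G W M : ℝ, 0 ≤ W →
  2 * W + 3 ≤ G → W + 4 * Bc β b * (q * J + 1) ≤ M →
    (law d ρ).real (winM β h n α W) ≤
      13 * Real.exp (J * Bc β b) * ∑ i : Fin q, (∫ η in winM β h n α M,
        ∫ ξ, ∑ s : Sp d n q, |msp β h n r s η - msp β h n r s (mxR b (t i) J η ξ)|
          ∂(law d (rb ρ b)) ∂(law d ρ)) +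
      4 * ((∑ i : Fin q, (law d ρ).real {η | η ∈ winM β h n α M ∧
        -G < X β h η n - Real.log (zB ρ β b h n (t i) J η)}) / q) +
      10 * Real.sqrt (Real.exp (J * Bc β b) / q)

/-- Leaf M2: `TvB` with a moving centre. -/
def TvBM : Prop := ∀ (h : Vec d) (n q J p : ℕ) (t : Fin q → ℕ) (r : Fin (q + 1) → ℕ), 1 ≤ J →
  OrdB n J t r → p ≤ r 0 → ∀ α : Env d → ℝ, Pst p α → ∀ (i : Fin q) (M s : ℝ), 0 ≤ M → 0 ≤ s →
    (∀ l : ℕ, t i < l → l ≤ t i + J →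
      ∫ η in winM β h n α (M + 4 * Bc β b * (J + 1)),
        kapE ρ β b h n l (r i.castSucc) (r i.succ) η ∂(law d ρ) ≤ s) →
    (∫ η in winM β h n α M,
      ∫ ξ, ∑ s : Sp d n q, |msp β h n r s η - msp β h n r s (mxR b (t i) J η ξ)|
        ∂(law d (rb ρ b)) ∂(law d ρ)) ≤ J * Real.sqrt (2 * s)

open Classical in
/-- Leaf M3: `OneC` with a moving centre. -/
def OneCM : Prop := ∀ (h : Vec d) (n k p : ℕ) (T : Fin k → ℕ) (r : Fin (k + 1) → ℕ), Ord n T r →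
  p ≤ r 0 → ∀ α : Env d → ℝ, Pst p α →
  ∀ θ ε b₀ δ M : ℝ, 0 < θ → θ ≤ 1 / (2 * Bc β b) → 0 ≤ ε → 0 ≤ b₀ → 0 ≤ M →
    (law d ρ).real {η | η ∈ winM β h n α (M + 4 * Bc β b * k) ∧ ¬ GoodN β h n (r 0) b₀ ε η} ≤ δ →
    (law d ρ).real {η | η ∈ winM β h n α (M + 4 * Bc β b * k) ∧
      ¬ GoodN β h n (r (Fin.last k)) b₀ ε η} ≤ δ →
    ∑ i : Fin k, ∫ η in winM β h n α M, kapE ρ β b h n (T i) (r i.castSucc) (r i.succ) η
        ∂(law d ρ) ≤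
      4 * Bc β b * k * δ + Real.log (1 + Real.exp (2 * ε * b₀)) / θ + 4 * Bc β b ^ 2 * θ * k +
      4 * Bc β b * k * Real.exp (4 * Bc β b * k - b₀ / 4) +
      2 * Bc β b * k * Real.exp (5 * Bc β b * k) * ∑ i : Fin k,
        Real.sqrt (2 * ((∫ η in winM β h n α (M + 4 * Bc β b * k),
            kapE ρ β b h n (T i) (r i.castSucc) (r i.succ) η ∂(law d ρ)) -
          ∫ η in winM β h n α (M + 4 * Bc β b * k),
            kapE ρ β b h n (T i) (r 0) (r (Fin.last k)) η ∂(law d ρ)))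

open Classical in
/-- Leaf M4: `RowsC` with a moving centre, the blocks after `p`. -/
def RowsCM : Prop := ∀ (q J : ℕ) (s : ℝ), 1 ≤ q → 1 ≤ J → 0 < s →
  ∃ ε δ b₂ : ℝ, 0 < ε ∧ 0 < δ ∧ ∀ b₀ : ℝ, b₂ ≤ b₀ → ∃ (n₀ : ℕ) (Λ : ℝ), 0 ≤ Λ ∧
    ∀ (h : Vec d) (n p : ℕ) (α : Env d → ℝ) (M : ℝ), p + n₀ ≤ n → Pst p α → 0 ≤ M →
    (∀ τ : ℕ, p < τ → τ ≤ n →
      (law d ρ).real {η | η ∈ winM β h n α (M + Λ) ∧ ¬ GoodN β h n τ b₀ ε η} ≤ δ) →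
    ∃ (t : Fin q → ℕ) (r : Fin (q + 1) → ℕ), OrdB n J t r ∧ p ≤ r 0 ∧
      ∀ (i : Fin q) (l : ℕ), t i < l → l ≤ t i + J →
        ∫ η in winM β h n α M, kapE ρ β b h n l (r i.castSucc) (r i.succ) η ∂(law d ρ) ≤ s

open Classical in
/-- Leaf M5: the multiplicity on the moving cluster, at the lengths where the free energy is
flat. -/
def MulCM : Prop := ∀ h : Vec d, VSD ρ β h → ∀ ε δ : ℝ, 0 < ε → 0 < δ →
  ∃ e₂ ε₂ : ℝ, 0 < e₂ ∧ 0 < ε₂ ∧ ∀ R : ℝ, 0 < R → ∀ m₁ : ℕ, ∃ b₁ : ℝ, ∀ b₀ : ℝ, b₁ ≤ b₀ →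
    ∃ m : ℕ, m₁ ≤ m ∧ ∃ M₁ : ℝ, ∀ M : ℝ, M₁ ≤ M → ∀ (n p : ℕ) (α : Env d → ℝ), Pst p α →
      FlaAt ρ β h n m ε₂ → ringM ρ β h n α R M ≤ e₂ → ∀ τ : ℕ, p ≤ τ → τ ≤ n →
        (law d ρ).real {η | η ∈ winM β h n α (M / 16) ∧ ¬ GoodN β h n τ b₀ ε η} ≤ δ

open Classical in
/-- Leaf M6: `ZlowC` with a moving centre. -/
def ZlowM : Prop := ∀ (h : Vec d) (ϑ : ℝ), 0 < ϑ → ∃ b₃ : ℝ, ∀ b : ℝ, b₃ ≤ b →
  ∀ (J t n p : ℕ) (α : Env d → ℝ) (R : ℝ), Pst p α → p ≤ t → 1 ≤ J → t ≤ n →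
    (law d ρ).real {η | Phi h ^ J / 2 ≤
        (∑ z ∈ boxF d J, if |X β h (remE J t z η) n - α η| ≤ R
          then PP β h (fun _ => 0) J z else 0) ∧
      Real.log (zB ρ β b h (n + J) t J η) <
        α η - R + J * (Real.log (Phi h) + Real.log (∫ x, Real.exp (β * x) ∂ρ)) - ϑ * J - 1} ≤ ϑ

open Classical in
/-- Leaf M7: `RemC` with a moving centre. -/
def RemM : Prop := ∀ h : Vec d, ∃ C : ℝ, 0 ≤ C ∧ ∀ (J t n p : ℕ) (α : Env d → ℝ) (R M : ℝ),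
  Pst p α → p ≤ t → 1 ≤ J → t ≤ n → 0 < M →
    (law d ρ).real {η | |X β h η (n + J) - (α η + lam ρ β h * J)| ≤ M / 16 ∧
      (∑ z ∈ boxF d J, if |X β h (remE J t z η) n - α η| ≤ R
        then PP β h (fun _ => 0) J z else 0) < Phi h ^ J / 2} ≤
      2 * (ringM ρ β h n α R M + C * J / M)

/-- Leaf M8: the localisation of blocks on the moving cluster (from M6, M7). -/
def LocM : Prop := ∀ (h : Vec d) (g κ : ℝ), 0 < g → 0 < κ →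
  lam ρ β h + g ≤ Real.log (Phi h) + Real.log (∫ t, Real.exp (β * t) ∂ρ) →
  ∃ b₃ : ℝ, ∀ b : ℝ, b₃ ≤ b → ∃ e₃ ε₃ : ℝ, 0 < e₃ ∧ 0 < ε₃ ∧ ∀ R : ℝ, 0 < R → ∃ J₁ : ℕ,
    ∀ J : ℕ, J₁ ≤ J → ∃ M₁ : ℝ, ∀ M : ℝ, M₁ ≤ M → ∀ (n p : ℕ) (α : Env d → ℝ), Pst p α →
      FlaAt ρ β h n J ε₃ → ringM ρ β h n α R M ≤ e₃ → ∀ t : ℕ, p ≤ t → t ≤ n →
        (law d ρ).real {η | η ∈ winM β h (n + J) (fun η => α η + lam ρ β h * J) (M / 16) ∧
          -(g / 2 * J) < X β h η (n + J) - Real.log (zB ρ β b h (n + J) t J η)} ≤ κ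

open Classical in
/-- Leaf M9: the free energy is flat at most lengths. -/
def FlaU : Prop := ∀ (h : Vec d) (ε θ : ℝ), 0 < ε → 0 < θ → ∃ m₁ : ℕ, ∀ᶠ N : ℕ in atTop,
  (((Finset.range N).filter fun n => ¬ ∀ m : ℕ, m₁ ≤ m → FlaAt ρ β h n m ε).card : ℝ) ≤ θ * N

open Classical in
/-- Leaf M10 (end): conditional anti-concentration at most lengths. -/
def CAC : Prop := ∀ h : Vec d, VSD ρ β h → ∀ R κ θ : ℝ, 0 < κ → 0 < θ → ∃ s : ℕ,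
  ∀ᶠ N : ℕ in atTop, (((Finset.range N).filter fun n =>
    ¬ ∀ (p : ℕ) (α : Env d → ℝ), p + s ≤ n → Pst p α →
      (law d ρ).real {η | |X β h η n - α η| ≤ R} ≤ κ).card : ℝ) ≤ θ * N

/-- Leaf M11: the four cycle inequality. -/
def C4L : Prop := ∀ T : Set (Env d), MeasurableSet T → ∀ D₁ D₂ : Set (ℕ × Site d),
  Disjoint D₁ D₂ → (law d ρ).real T ^ 4 ≤ ((law d ρ).prod (law d ρ)).real
    {w | w.1 ∈ T ∧ sw D₁ w.1 w.2 ∈ T ∧ sw (D₁ ∪ D₂) w.1 w.2 ∈ T}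

/-- Leaf M12: the tie. -/
def TieL : Prop := ∀ (h : Vec d) (A : Set (Site d)) (p s : ℕ) (δ : ℝ), 0 < δ → δ ≤ 1 →
  (law d ρ).real {η | δ ≤ mA β h (p + s) (inn s A) η ∧ δ ≤ mA β h (p + s) (inn s Aᶜ) η} ^ 4 ≤
    ((law d ρ).prod (law d ρ)).real {w | |X β h w.1 (p + s) -
      X β h (sw {q | p < q.1} w.1 w.2) (p + s)| ≤ 2 * Real.log (1 / δ)}

/-- Leaf M13: the cut. -/
def CutL : Prop := ∀ (κ : ℝ) (s : ℕ), 0 < κ → ∃ ℓ : ℕ, ∀ (h : Vec d) (n : ℕ),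
  κ < ∫ η, far β h n ℓ η ∂(law d ρ) → ∃ A : Set (Site d),
    κ / (16 * d) ≤ (law d ρ).real {η | κ / (16 * d) ≤ mA β h n (inn s A) η ∧
      κ / (16 * d) ≤ mA β h n (inn s Aᶜ) η}

open Classical in
/-- The theorem: at almost all lengths the end point is localised in a bounded region. -/
def MainML : Prop := ∀ h : Vec d, VSD ρ β h → ∀ κ : ℝ, 0 < κ → ∃ ℓ : ℕ, ∀ᶠ N : ℕ in atTop,
  (((Finset.range N).filter fun n => κ < ∫ η, far β h n ℓ η ∂(law d ρ)).card : ℝ) ≤ κ * N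

end Leaves

end Pool.Agent.W_7d29a1_ML
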